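import Pool.Agent.Lib.MP_c6d701_gt.Gen

/-!
# MP_c6d701_gt: `C_p(C_p(ℙ))` does not embed in an analytic space

General form: the irrationals `ℙ` may be replaced by every topological space with an unbounded
continuous real-valued function.
-/

set_option autoImplicit false

universe u v

namespace Pool.Agent.Results.MP_c6d701_gt.IteratedFunctionSpaces

/-- `C_p(X)`: the set of all continuous functions `X → ℝ` with the topology of pointwise
convergence, that is, the subspace topology inherited from the product `ℝ^X`. -/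
abbrev Cp (X : Type u) [TopologicalSpace X] : Type u := {f : X → ℝ // Continuous f}

private theorem exists_points {X : Type u} [TopologicalSpace X] (h : X → ℝ)
    (hu : ∀ C : ℝ, ∃ x, C < |h x|) :
    ∃ p : ℕ → X, Pairwise fun m n => 1 ≤ dist |h (p m)| |h (p n)| := by
  choose g hg using hu
  let p : ℕ → X := fun n => Nat.rec (g 0) (fun _ x => g (|h x| + 1)) n
  have hp : ∀ n, |h (p n)| + 1 ≤ |h (p (n + 1))| := fun n => (hg (|h (p n)| + 1)).le
  have hlt : ∀ m k, |h (p m)| + 1 ≤ |h (p (m + k + 1))| := by
    intro m k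
    induction k with
    | zero => exact hp m
    | succ k ih =>
      have h1 := hp (m + k + 1)
      have h2 : m + (k + 1) + 1 = m + k + 1 + 1 := by ring
      rw [h2]
      linarith
  refine ⟨p, fun m n hmn => ?_⟩
  change 1 ≤ |(|h (p m)| - |h (p n)|)|
  rcases lt_or_gt_of_ne hmn with hlt' | hlt'
  · obtain ⟨k, rfl⟩ := Nat.exists_eq_add_of_lt hlt'
    have h1 := hlt m k
    rw [abs_sub_comm]
    exact le_trans (by linarith) (le_abs_self _)
  · obtain ⟨k, rfl⟩ := Nat.exists_eq_add_of_lt hlt'
    have h1 := hlt n k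
    exact le_trans (by linarith) (le_abs_self _)

private theorem exists_baire_map :
    ∃ b : (ℕ → ℕ) → {x : ℝ // Irrational x}, Continuous b ∧ Function.Surjective b := by
  have h1 : MeasurableSet {x : ℝ | Irrational x} := by
    have h2 : {x : ℝ | Irrational x} = (Set.range ((↑) : ℚ → ℝ))ᶜ := rfl
    rw [h2]
    exact (Set.countable_range _).measurableSet.compl
  have h3 := h1.analyticSet
  rw [MeasureTheory.AnalyticSet] at h3
  rcases h3 with h3 | ⟨f, hf, hr⟩
  · exact absurd h3 (Set.Nonempty.ne_empty ⟨√2, irrational_sqrt_two⟩)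
  · have hmem : ∀ x, Irrational (f x) := by
      intro x
      have h4 : f x ∈ Set.range f := ⟨x, rfl⟩
      rw [hr] at h4
      exact h4
    refine ⟨fun x => ⟨f x, hmem x⟩, hf.subtype_mk _, ?_⟩
    rintro ⟨y, hy⟩
    have h5 : y ∈ Set.range f := by
      rw [hr]
      exact hy
    obtain ⟨x, hx⟩ := h5
    exact ⟨x, Subtype.ext hx⟩

/-- Let `X` be a topological space which carries an unbounded continuous real-valued function, for
example the space `ℙ` of the irrationals, and let `Y` be a regular space which is a continuous image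
of `ℙ`. Then `C_p(C_p(X))` does not embed in `Y`. -/
theorem result (X : Type u) [TopologicalSpace X]
    (hX : ∃ h : X → ℝ, Continuous h ∧ ∀ C : ℝ, ∃ x, C < |h x|)
    (Y : Type v) [TopologicalSpace Y] [RegularSpace Y]
    (hY : ∃ f : {x : ℝ // Irrational x} → Y, Continuous f ∧ Function.Surjective f) :
    ¬ ∃ e : Cp (Cp X) → Y, Topology.IsEmbedding e := by
  rintro ⟨e, he⟩
  obtain ⟨h, hc, hu⟩ := hX
  obtain ⟨f, hf, hs⟩ := hY
  obtain ⟨b, hb, hbs⟩ := exists_baire_map
  obtain ⟨p, hp⟩ := exists_points h hu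
  have hcl : Topology.IsClosedEmbedding (fun n : ℕ => |h (p n)|) :=
    Metric.isClosedEmbedding_of_pairwise_le_dist one_pos hp
  have hext : ∀ a : ℕ → ℝ, ∃ s : Cp X, ∀ n, s.1 (p n) = a n := by
    intro a
    obtain ⟨g, hg⟩ := ContinuousMap.exists_extension' hcl
      (⟨a, continuous_of_discreteTopology⟩ : C(ℕ, ℝ))
    exact ⟨⟨fun x => g |h x|, g.continuous.comp hc.abs⟩, fun n => congrFun hg n⟩
  choose sec hsec using hext
  exact Pool.Agent.Lib.MP_c6d701_gt.Gen.no_embedding p sec
    (fun a => funext fun n => hsec a n) (f ∘ b) (hf.comp hb) (hs.comp hbs) e he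

end Pool.Agent.Results.MP_c6d701_gt.IteratedFunctionSpaces
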